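import Pool.Agent.LPK.Stmts
import Pool.Agent.Helper39_LPK.TOT

/-!
# Squad LPK, row FSM (helper30): summability of the functions of a certificate
-/

set_option autoImplicit false

noncomputable section

open MeasureTheory Filter Topology
open scoped RealInnerProductSpace

namespace Pool.Agent.LPK.H30

open Pool.Agent.LPK Pool.Agent.LPK.H39T

/-- finite sums over a list of summable families -/
theorem sm_list {ι α : Type} (L : List α) (F : α → ι → ℝ) (h : ∀ d, Summable (F d)) :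
    Summable (fun a => (L.map fun d => F d a).sum) :=
  (hs_list L F (fun d => ∑' a, F d a) fun d => (h d).hasSum).summable

/-- **FSM** -/
theorem fsm (sum : SumStmt) (ps2 : Ps2Stmt) (dua : DuaStmt) : FsmStmt := by
  intro n κ D b b' hD
  have hD' := (dua n κ b b' hD).1
  obtain ⟨s1, s2, s3, s4⟩ := sum n κ κ b b b' b' hD hD
  obtain ⟨s1', s2', s3', s4'⟩ := sum n κ⁻¹ κ⁻¹ b' b' b b hD' hD'
  obtain ⟨_, m2, _, m4⟩ := sum n κ κ⁻¹ b b' b' b hD hD'
  obtain ⟨_, m2', _, _⟩ := sum n κ⁻¹ κ b' b b b' hD' hD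
  have hsw : Summable fun a : Z2 n => W (T3 n D.P) (pt b' a.2) (pt b a.1) :=
    (m2' (T3 n D.P)).prod_symm
  have hgs : Summable fun a : Fin n → ℤ => e3 D.g (‖pt b a‖ ^ 2) 0 0 * G (pt b a) := by
    have h := s1 D.g 0
    simp only [norm_zero, inner_zero_right, ne_eq, OfNat.ofNat_ne_zero, not_false_eq_true,
      zero_pow] at h
    exact h
  have hgs' : Summable fun a : Fin n → ℤ => e3 (T3 n D.g) (‖pt b' a‖ ^ 2) 0 0 * G (pt b' a) := by
    have h := s1' (T3 n D.g) 0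
    simp only [norm_zero, inner_zero_right, ne_eq, OfNat.ofNat_ne_zero, not_false_eq_true,
      zero_pow] at h
    exact h
  refine ⟨?_, ?_, ?_, ?_, ?_⟩
  · rw [show fLL D b = _ from funext fun a => fLL_eq D b a]
    exact (((s2 D.P).add (sm_list D.ps _ fun d => (s4 d.2.2 d.2.2).mul_left (d.1 : ℝ))).add
      (sm_list D.ps2 _ fun d => (ps2 n κ b b' hD d.2).1.mul_left (d.1 : ℝ))).add
      (sm_list D.cb _ fun d => (sum_bd (s4 d.2.2.2.1 d.2.2.2.1)
        (fun a => ind_abs (Cg a.1 a.2))).mul_left (d.1 : ℝ))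
  · rw [show fSS D b' = _ from funext fun a => fSS_eq D b' a]
    exact (((s2' D.Q).add (sm_list D.qs _ fun d => (s4' d.2.2 d.2.2).mul_left (d.1 : ℝ))).add
      (sm_list D.qs2 _ fun d => (ps2 n κ⁻¹ b' b hD' d.2).1.mul_left (d.1 : ℝ))).add
      (sm_list D.cb _ fun d => (sum_bd (s4' d.2.2.2.2 d.2.2.2.2)
        (fun a => ind_abs (Cg a.1 a.2))).mul_left (d.1 : ℝ))
  · rw [show fLS κ D b b' = _ from funext fun a => fLS_eq D κ b b' a]
    exact ((hsw.mul_left (-κ⁻¹)).add ((m2 (T3 n D.Q)).mul_left (-κ))).add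
      (sm_list D.cb _ fun d => ((sum_bd (m4 d.2.2.2.1 d.2.2.2.2)
        (fun a => sg_abs a.1 a.2)).mul_left (2 * rr n)).mul_left (d.1 : ℝ))
  · rw [show fL D b = _ from funext fun a => fL_eq D b a]
    exact ((hgs.add (sm_list D.cb _ fun d =>
      ((s3 d.2.2.2.1).mul_left (2 * (d.2.2.1 : ℝ) * rr n)).mul_left (d.1 : ℝ))).add
      (sm_list D.ps _ fun d =>
        ((s3 d.2.2).mul_left (2 * (d.2.1 : ℝ))).mul_left (d.1 : ℝ))).add
      (sm_list D.cb _ fun d => ((sum_bd (s3 d.2.2.2.1) (fun a => ind_abs (Evn a))).mul_left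
        (2 * (d.2.1 : ℝ))).mul_left (d.1 : ℝ))
  · rw [show fS κ D b' = _ from funext fun a => fS_eq D κ b' a]
    exact ((((hgs'.mul_left (-κ⁻¹))).add (sm_list D.cb _ fun d =>
      ((s3' d.2.2.2.2).mul_left (2 * (d.2.1 : ℝ) * rr n)).mul_left (d.1 : ℝ))).add
      (sm_list D.qs _ fun d =>
        ((s3' d.2.2).mul_left (2 * (d.2.1 : ℝ))).mul_left (d.1 : ℝ))).add
      (sm_list D.cb _ fun d => ((sum_bd (s3' d.2.2.2.2) (fun a => ind_abs (Evn a))).mul_left
        (2 * (d.2.2.1 : ℝ))).mul_left (d.1 : ℝ))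

end Pool.Agent.LPK.H30

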